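import Pool.Agent.H75.OM.TC

/-!
# Row ALG: change of the predicate under alternating quantifiers
-/

set_option autoImplicit false

namespace Pool.Agent.H15.OMN

open Finset Pool.Agent.H6.NB Pool.Agent.H70.OQ Pool.Agent.H70.EH Pool.Agent.H70.EI
  Pool.Agent.H78.XQ Pool.Agent.H75.OM

theorem pf_ALG : T_ALG := by
  intro t k
  induction k with
  | zero =>
    intro b P Q h
    cases b <;> exact h [] rfl (by simp)
  | succ k ih =>
    intro b P Q h
    cases b with
    | true =>
      refine exists_congr fun w => and_congr_right fun hw => ih false _ _ fun ws h1 h2 => ?_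
      refine h (w :: ws) (by rw [List.length_cons, h1]) fun v hv => ?_
      rcases List.mem_cons.mp hv with rfl | hv
      · exact hw
      · exact h2 v hv
    | false =>
      refine forall_congr' fun w => imp_congr_right fun hw => ih true _ _ fun ws h1 h2 => ?_
      refine h (w :: ws) (by rw [List.length_cons, h1]) fun v hv => ?_
      rcases List.mem_cons.mp hv with rfl | hv
      · exact hw
      · exact h2 v hv

end Pool.Agent.H15.OMN
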