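import Pool.Agent.H75.OM.TC

/-!
# Row FNC: every language has circuits
-/

set_option autoImplicit false

namespace Pool.Agent.H15.OMN

open Finset Pool.Agent.H6.NB Pool.Agent.H70.OQ Pool.Agent.H70.EH Pool.Agent.H70.EI
  Pool.Agent.H78.XQ Pool.Agent.H75.OM

theorem alt_const (k : ℕ) : ∀ (b : Bool) (P : Prop),
    Alt (fun w => w.length = 0) b k (fun _ => P) ↔ P := by
  induction k with
  | zero =>
    intro b P
    cases b <;> exact Iff.rfl
  | succ k ih =>
    intro b P
    cases b with
    | true =>
      constructor
      · rintro ⟨w, -, h⟩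
        exact (ih false P).mp h
      · intro h
        exact ⟨[], rfl, (ih false P).mpr h⟩
    | false =>
      constructor
      · intro h
        exact (ih true P).mp (h [] rfl)
      · intro h w _
        exact (ih true P).mpr h

open Classical in
theorem pf_FNC (h1 : T_ALF) (h2 : T_ALG) : T_FNC := by
  refine ⟨fun k n L => ?_, ?_⟩
  · obtain ⟨C, hC1, -, hC3, hC4⟩ := h1 n (fun x => decide (x ∈ L))
    refine ⟨2 ^ (n + 5), C, 0, hC1, hC3, Nat.zero_le _, fun x hx => ?_⟩
    have h3 : Acc k 0 (fun _ => false) C x ↔
        Alt (fun w => w.length = 0) true k (fun _ => cout (fun _ => false) C x = true) := by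
      refine h2 0 k true _ _ fun ws _ hws => ?_
      have h4 : ws.flatten = [] := by
        rw [List.flatten_eq_nil_iff]
        intro w hw
        exact List.length_eq_zero_iff.mp (hws w hw)
      rw [h4, List.append_nil]
    rw [h3, alt_const, hC4 x hx, decide_eq_true_eq]
  · rintro k n s s' L hs ⟨C, t, hC1, hC2, ht, h⟩
    exact ⟨C, t, hC1, hC2.trans hs, ht.trans hs, h⟩

end Pool.Agent.H15.OMN
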