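import Pool.Agent.H75.OM.TD

/-!
# Row LFC: an oracle with a description is a formula of the random bits
-/

set_option autoImplicit false

namespace Pool.Agent.H15.OMN

open Finset Pool.Agent.H6.NB Pool.Agent.H70.OQ Pool.Agent.H70.EH Pool.Agent.H70.EI
  Pool.Agent.H78.XQ Pool.Agent.H75.OM

open Classical in
theorem pf_LFC (h1 : T_MNS) (h2 : Pool.Agent.H75.OM.T_DNF) : T_LFC := by
  intro S s ω D₀ p w hp hS hw
  have h1S : 1 ≤ S := le_trans Nat.one_le_two_pow hS
  rcases hD : p.D.find? (fun c => decide (c.1 = w)) with _ | c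
  · rcases hQ : p.Q.find? (fun c => decide (IsW c.1 c.2.1 w)) with _ | c
    · have e : (fun y => OSp p (ex2 s ω y) w) =
          fun y : St s × Fin (ω + 1) → Bool => y (⟨w, hw⟩, ⟨0, by omega⟩) := by
        funext y
        simp only [OSp, hD, hQ, ex2]
        rw [dif_pos ⟨hw, by omega⟩]
      rw [e]
      exact h1 _ S S 0 2 _ (Or.inr ⟨_, fun y => rfl⟩) le_rfl (by norm_num) h1S
    · have hc : c ∈ p.Q := List.mem_of_find?_eq_some hQ
      have hr : c.2.1 ≤ ω := hp.len c hc
      have e : (fun y => OSp p (ex2 s ω y) w) =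
          fun y : St s × Fin (ω + 1) → Bool => thr c.2.1 c.2.2 fun i => ex2 s ω y w (i + 1) := by
        funext y
        simp only [OSp, hD, hQ]
      rw [e]
      let A : Finset (St s × Fin (ω + 1)) :=
        univ.image fun i : Fin c.2.1 => ((⟨w, hw⟩ : St s), (⟨(i : ℕ) + 1, by omega⟩ : Fin (ω + 1)))
      refine h2 _ A S _ ?_ ?_
      · have h3 : A.card ≤ c.2.1 := by
          refine card_image_le.trans ?_
          rw [card_univ, Fintype.card_fin]
        exact (Nat.pow_le_pow_right (by norm_num) (by omega)).trans hS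
      · intro y y' hy
        unfold thr
        have h4 : ∑ i ∈ Finset.range c.2.1, (if ex2 s ω y w (i + 1) then 2 ^ i else 0) =
            ∑ i ∈ Finset.range c.2.1, (if ex2 s ω y' w (i + 1) then 2 ^ i else 0) := by
          refine sum_congr rfl fun i hi => ?_
          have hi' := mem_range.mp hi
          have h5 : ex2 s ω y w (i + 1) = ex2 s ω y' w (i + 1) := by
            unfold ex2
            rw [dif_pos ⟨hw, by omega⟩, dif_pos ⟨hw, by omega⟩]
            exact hy _ (mem_image.mpr ⟨⟨i, hi'⟩, mem_univ _, rfl⟩)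
          rw [h5]
        rw [h4]
  · have e : (fun y => OSp p (ex2 s ω y) w) =
        fun _ : St s × Fin (ω + 1) → Bool => c.2 := by
      funext y
      simp only [OSp, hD]
    rw [e]
    exact h1 _ S S 0 2 _ (Or.inl ⟨_, fun y => rfl⟩) le_rfl (by norm_num) h1S

end Pool.Agent.H15.OMN
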