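import Pool.Agent.H75.OM.TD

/-!
# Row NOY: the requirements of smaller size do not depend on the table
-/

set_option autoImplicit false

namespace Pool.Agent.H15.OMN

open Finset Pool.Agent.H6.NB Pool.Agent.H70.OQ Pool.Agent.H70.EH Pool.Agent.H70.EI
  Pool.Agent.H78.XQ Pool.Agent.H75.OM

theorem pf_NOY (h1 : T_LOH) (h2 : Pool.Agent.H70.OQ.T_NST) : T_NOY := by
  intro e s₀ V W ρ R hS E O hO g P a h b hb c
  have hba : b < a := by
    by_contra hcon
    push Not at hcon
    have h3 : ρ a ≤ ρ b := hS.rho.mono.monotone hcon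
    have h4 := hS.lo b
    omega
  have hs : (R b).s < 2 ^ ρ a := by
    refine (hS.hi b).2.trans_le (Nat.pow_le_pow_right (by norm_num) ?_)
    exact hS.rho.mono.monotone hba
  have h12 : ∀ w : List Bool, w.length ≤ 2 ^ ρ a →
      O (Function.update P ⟨.inr a, h⟩ c) g w = O P g w := by
    intro w hw
    rcases (hO.isx g).tabU P a h w with h3 | ⟨x, h3⟩
    · exact h3 c
    · exfalso
      have h4 := (h2 (2 ^ ρ a) ((W a).1 + 1)).1 x
      rw [h3, List.length_cons, h4] at hw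
      have h5 : 1 ≤ 2 ^ ((W a).1 + 1 + 1) - 1 := by
        have : 2 ^ 1 ≤ 2 ^ ((W a).1 + 1 + 1) := Nat.pow_le_pow_right (by norm_num) (by omega)
        omega
      have h6 : 1 * 2 ^ ρ a ≤ (2 ^ ((W a).1 + 1 + 1) - 1) * 2 ^ ρ a := Nat.mul_le_mul_right _ h5
      omega
  unfold Rq.ok
  rw [h1 (R b).k (R b).n (R b).s _ _ (R b).L fun w hw => h12 w (hw.trans hs.le)]

end Pool.Agent.H15.OMN
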